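import Pool.Agent.H990Z.InjT.Hilb

/-!
The argument of Bessaga and Pełczyński and a gliding hump argument in `ℓ²`-sums.
-/

namespace Pool.Agent.H990Z.InjT

open Ordinal Set Topology

universe u v w

/-- `f` vanishes off `(β, β']`. -/
def Supp {lam : Ordinal.{u}} (f : COrd lam) (β β' : Ordinal.{u}) : Prop :=
  ∀ y, y ≤ lam → ¬ (β < y ∧ y ≤ β') → ext f y = 0

theorem exists_small {θ γ₀ γ' : Ordinal.{u}} (hω : ω ≤ γ₀) (hγ' : γ' < γ₀)
    (hmin : ∀ γ < γ₀, ¬ LB (COrd θ) (COrd γ)) (V : COrd θ →L[ℝ] COrd γ₀) {η : ℝ} (hη : 0 < η) :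
    ∃ g : COrd θ, ‖g‖ = 1 ∧ |ext (V g) γ₀| < η ∧ ∀ y ≤ γ', |ext (V g) y| < η := by
  obtain ⟨S, hS⟩ := join
    ((pc γ₀ 0 (fun _ => γ₀) continuous_const univ isClopen_univ).comp V)
    ((pc γ₀ γ' id continuous_id univ isClopen_univ).comp V)
  have hlt : 0 + 1 + γ' < γ₀ := by
    rw [zero_add]
    rcases lt_or_ge γ' ω with h | h
    · exact (isPrincipal_add_omega0 one_lt_omega0 h).trans_le hω
    · rwa [one_add_of_omega0_le h]
  have hn := hmin _ hlt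
  simp only [LB, not_exists, not_and, not_forall, not_le] at hn
  obtain ⟨g, hg⟩ := hn S η hη
  have hg0 : 0 < ‖g‖ := by
    rcases (norm_nonneg g).eq_or_lt with h | h
    · have : g = 0 := norm_eq_zero.1 h.symm
      subst this
      simp at hg
    · exact h
  have hsm : ‖S (‖g‖⁻¹ • g)‖ < η := by
    rw [map_smul, norm_smul, norm_inv, norm_norm, inv_mul_lt_iff₀ hg0]
    linarith
  refine ⟨‖g‖⁻¹ • g, by rw [norm_smul, norm_inv, norm_norm, inv_mul_cancel₀ hg0.ne'], ?_, ?_⟩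
  · refine lt_of_le_of_lt ?_ ((hS _).1.trans_lt hsm)
    refine le_trans (le_of_eq ?_) (abs_ext_le _ 0)
    rw [ContinuousLinearMap.comp_apply, ext_pc _ le_rfl]
    simp
  · intro y hy
    refine lt_of_le_of_lt ?_ ((hS _).2.1.trans_lt hsm)
    refine le_trans (le_of_eq ?_) (abs_ext_le _ y)
    rw [ContinuousLinearMap.comp_apply, ext_pc _ hy]
    simp

theorem exists_tail {γ₀ : Ordinal.{u}} (h0 : 0 < γ₀) (g : COrd γ₀) {c : ℝ}
    (hc : |ext g γ₀| < c) : ∃ γ' < γ₀, ∀ y, γ' < y → y ≤ γ₀ → |ext g y| < c := by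
  have ho : IsOpen {z | |ext g z| < c} := isOpen_lt (ext_cont g).abs continuous_const
  have := (SuccOrder.hasBasis_nhds_Ioc_of_exists_lt (⟨0, h0⟩ : ∃ b, b < γ₀)).mem_iff.1
    (ho.mem_nhds hc)
  obtain ⟨a, ha, hsub⟩ := this
  exact ⟨a, ha, fun y h1 h2 => hsub ⟨h1, h2⟩⟩

theorem bp {lam θ β₀ : Ordinal.{u}} (hadd : IsPrincipal (· + ·) lam)
    (hmul : IsPrincipal (· * ·) lam) (hω : ω ≤ θ) (hθ : θ < lam) (hβ : β₀ < lam)
    (S₀ : COrd lam →L[ℝ] COrd θ) {δ₀ : ℝ} (hδ₀ : 0 < δ₀)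
    (hS₀ : ∀ f β', β' < lam → Supp f β₀ β' → δ₀ * ‖f‖ ≤ ‖S₀ f‖) : False := by
  have hne : ({γ | LB (COrd θ) (COrd γ)} : Set Ordinal.{u}).Nonempty :=
    ⟨θ, ContinuousLinearMap.id ℝ _, 1, one_pos, fun x => by simp⟩
  set γ₀ := sInf {γ | LB (COrd θ) (COrd γ)} with hγ₀
  have hmem : LB (COrd θ) (COrd γ₀) := csInf_mem hne
  have hmin : ∀ γ < γ₀, ¬ LB (COrd θ) (COrd γ) := fun γ hγ h =>
    absurd (csInf_le' (show γ ∈ {γ | LB (COrd θ) (COrd γ)} from h)) (not_le.2 hγ)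
  have hω₀ : ω ≤ γ₀ := omega_le_of_lb hω hmem
  obtain ⟨T, c, hc, hT⟩ := hmem
  set S := T.comp S₀ with hSdef
  set δ := c * δ₀ with hδdef
  have hδ : 0 < δ := by positivity
  have hS : ∀ f β', β' < lam → Supp f β₀ β' → δ * ‖f‖ ≤ ‖S f‖ := by
    intro f β' h1 h2
    have := mul_le_mul_of_nonneg_left (hS₀ f β' h1 h2) hc.le
    have h3 := hT (S₀ f)
    simp only [hSdef, hδdef, ContinuousLinearMap.comp_apply]
    linarith [mul_assoc c δ₀ ‖f‖]
  have h1lam : 1 < lam := one_lt_omega0.trans_le (hω.trans hθ.le)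
  let s : ℕ → Ordinal.{u} := fun k => Nat.rec 1 (fun _ t => t * (1 + θ)) k
  have hs0 : s 0 = 1 := rfl
  have hsS : ∀ k, s (k + 1) = s k * (1 + θ) := fun k => rfl
  have hspos : ∀ k, 0 < s k := by
    intro k
    induction k with
    | zero => rw [hs0]; exact zero_lt_one
    | succ k ih => rw [hsS]; exact mul_pos ih (zero_lt_one.trans_le le_self_add)
  have hslt : ∀ k, s k < lam := by
    intro k
    induction k with
    | zero => rw [hs0]; exact h1lam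
    | succ k ih => rw [hsS]; exact hmul ih (hadd h1lam hθ)
  have key : ∀ η : ℝ, 0 < η → ∀ j k : ℕ, ∃ β β' : Ordinal.{u}, ∃ h : COrd lam,
      β₀ ≤ β ∧ β + s k < lam ∧ β' < lam ∧ Supp h β₀ β' ∧
      (∀ y, β < y → y ≤ β + s k → (j : ℝ) / 2 ≤ ext h y) ∧
      ‖S h‖ ≤ ‖S‖ + 2 * j * η ∧ |ext (S h) γ₀| ≤ j * η := by
    intro η hη j
    induction j with
    | zero =>
      intro k
      refine ⟨β₀, β₀, 0, le_rfl, hadd hβ (hslt k), hβ, fun y _ _ => rfl, ?_,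
        by rw [map_zero, norm_zero]; positivity, ?_⟩
      · intro y _ _
        show ((0 : ℕ) : ℝ) / 2 ≤ 0
        simp
      · rw [map_zero]
        show |(0 : ℝ)| ≤ _
        simp
    | succ j ih =>
      intro k
      obtain ⟨β, β', h, hβ₀, hβs, hβ', hsupp, hbig, hnorm, htop⟩ := ih (k + 1)
      rw [hsS] at hβs hbig
      obtain ⟨A, hA, hAs, hAb⟩ := block θ lam β (s k) (hspos k) hβs.le
      obtain ⟨γ', hγ', htail⟩ := exists_tail (omega0_pos.trans_le hω₀) (S h)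
        (c := j * η + η) (by linarith)
      obtain ⟨g, hg, hg1, hg2⟩ := exists_small hω₀ hγ' hmin (S.comp A) hη
      simp only [ContinuousLinearMap.comp_apply] at hg1 hg2
      obtain ⟨β'', hβ'', hβ''s, r, hr, hconst⟩ := hAb g (1 / 2) (by norm_num) (by rw [hg]; norm_num)
      have hSA : ‖S (A g)‖ ≤ ‖S‖ :=
        (S.le_opNorm _).trans (mul_le_of_le_one_right (norm_nonneg _) (hg ▸ hA g))
      obtain ⟨σ, hσ, hσr⟩ : ∃ σ : ℝ, |σ| = 1 ∧ 1 / 2 < σ * r := by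
        rcases le_or_gt 0 r with h0 | h0
        · exact ⟨1, by simp, by rwa [abs_of_nonneg h0, ← one_mul r] at hr⟩
        · exact ⟨-1, by simp, by rw [abs_of_neg h0] at hr; linarith⟩
      have hj : (0 : ℝ) ≤ j * η := by positivity
      refine ⟨β'', max β' (β + s k * (1 + θ)), h + σ • A g, hβ₀.trans hβ'', hβ''s.trans_lt hβs,
        max_lt hβ' hβs, ?_, ?_, ?_, ?_⟩
      · intro y hy hn
        rw [ext_add, ext_smul, hsupp y hy, hAs g y hy]
        · simp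
        · rintro ⟨h1, h2⟩
          exact hn ⟨hβ₀.trans_lt h1, h2.trans (le_max_right _ _)⟩
        · rintro ⟨h1, h2⟩
          exact hn ⟨h1, h2.trans (le_max_left _ _)⟩
      · intro y h1 h2
        rw [ext_add, ext_smul, hconst y h1 h2]
        have := hbig y (hβ''.trans_lt h1) (h2.trans hβ''s)
        push_cast
        linarith
      · refine norm_le_of_ext _ fun y hy => ?_
        rw [map_add, map_smul, ext_add, ext_smul]
        refine (abs_add_le _ _).trans ?_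
        rw [abs_mul, hσ, one_mul]
        push_cast
        rcases le_or_gt y γ' with h1 | h1
        · have := hg2 y h1
          have h2 := abs_ext_le (S h) y
          linarith
        · have := htail y h1 hy
          have h2 := abs_ext_le (S (A g)) y
          linarith
      · rw [map_add, map_smul, ext_add, ext_smul]
        refine (abs_add_le _ _).trans ?_
        rw [abs_mul, hσ, one_mul]
        push_cast
        linarith
  obtain ⟨N, hN⟩ := exists_nat_gt (2 * (‖S‖ + 2) / δ)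
  have hN0 : (0 : ℝ) < N := lt_of_le_of_lt (by positivity) hN
  obtain ⟨β, β', h, -, hβs, hβ', hsupp, hbig, hnorm, -⟩ := key (1 / N) (by positivity) N 0
  have h1 := hbig (β + s 0) (by rw [hs0]; exact lt_add_one β) le_rfl
  have h2 : (N : ℝ) / 2 ≤ ‖h‖ := h1.trans ((le_abs_self _).trans (abs_ext_le h _))
  have h3 := hS h β' hβ' hsupp
  have h4 : 2 * (N : ℝ) * (1 / N) = 2 := by field_simp
  rw [div_lt_iff₀ hδ] at hN
  nlinarith

theorem hasSum_sq {E : ℕ → Type v} [∀ n, NormedAddCommGroup (E n)] (ξ : lp E 2) :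
    HasSum (fun n => ‖ξ n‖ ^ 2) (‖ξ‖ ^ 2) := by
  have := lp.hasSum_norm (p := 2) (by norm_num) ξ
  simpa using this

theorem lp_sign {E : ℕ → Type v} [∀ n, NormedAddCommGroup (E n)] [∀ n, NormedSpace ℝ (E n)]
    (ξ ζ : lp E 2) (N : ℕ) :
    2 * (∑ n ∈ Finset.range N, ‖ξ n‖ ^ 2 + ‖ζ‖ ^ 2 - ∑ n ∈ Finset.range N, ‖ζ n‖ ^ 2) ≤
      ‖ξ + ζ‖ ^ 2 + ‖ξ - ζ‖ ^ 2 := by
  have h1 : HasSum (fun n => if n ∈ Finset.range N then ‖ξ n‖ ^ 2 - ‖ζ n‖ ^ 2 else 0)
      (∑ n ∈ Finset.range N, (‖ξ n‖ ^ 2 - ‖ζ n‖ ^ 2)) := by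
    have : HasSum (fun n => if n ∈ Finset.range N then ‖ξ n‖ ^ 2 - ‖ζ n‖ ^ 2 else 0)
        (∑ n ∈ Finset.range N, if n ∈ Finset.range N then ‖ξ n‖ ^ 2 - ‖ζ n‖ ^ 2 else 0) :=
      hasSum_sum_of_ne_finset_zero fun n hn => by simp only [hn, if_false]
    rwa [Finset.sum_congr rfl fun n hn => if_pos hn] at this
  have h2 := ((hasSum_sq ζ).add h1).mul_left 2
  have h3 := (hasSum_sq (ξ + ζ)).add (hasSum_sq (ξ - ζ))
  have h4 := hasSum_le (fun n => ?_) h2 h3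
  · rw [Finset.sum_sub_distrib] at h4
    linarith
  · have ha : (ξ + ζ) n = ξ n + ζ n := rfl
    have hb : (ξ - ζ) n = ξ n - ζ n := rfl
    rw [ha, hb]
    have e1 : 2 * ‖ξ n‖ ≤ ‖ξ n + ζ n‖ + ‖ξ n - ζ n‖ := by
      have := norm_add_le (ξ n + ζ n) (ξ n - ζ n)
      have e : ξ n + ζ n + (ξ n - ζ n) = ξ n + ξ n := by abel
      have e' : ‖ξ n + ξ n‖ = 2 * ‖ξ n‖ := by
        rw [← two_smul ℝ, norm_smul]; simp
      rw [e, e'] at this
      exact this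
    have e2 : 2 * ‖ζ n‖ ≤ ‖ξ n + ζ n‖ + ‖ξ n - ζ n‖ := by
      have := norm_sub_le (ξ n + ζ n) (ξ n - ζ n)
      have e : ξ n + ζ n - (ξ n - ζ n) = ζ n + ζ n := by abel
      have e' : ‖ζ n + ζ n‖ = 2 * ‖ζ n‖ := by
        rw [← two_smul ℝ, norm_smul]; simp
      rw [e, e'] at this
      exact this
    have p1 := norm_nonneg (ξ n)
    have p2 := norm_nonneg (ζ n)
    split_ifs
    · nlinarith [sq_nonneg (‖ξ n + ζ n‖ - ‖ξ n - ζ n‖)]
    · nlinarith [sq_nonneg (‖ξ n + ζ n‖ - ‖ξ n - ζ n‖)]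

theorem hump {lam : Ordinal.{u}} (hlam : 0 < lam) {E : ℕ → Type v} [∀ n, NormedAddCommGroup (E n)]
    [∀ n, NormedSpace ℝ (E n)] (T : COrd lam →L[ℝ] lp E 2) {c : ℝ} (hc : 0 < c)
    (hT : ∀ f, c * ‖f‖ ≤ ‖T f‖) :
    ∃ (N : ℕ) (β₀ : Ordinal.{u}) (δ : ℝ), β₀ < lam ∧ 0 < δ ∧ ∀ f β', β' < lam → Supp f β₀ β' →
      δ * ‖f‖ ≤ ∑ n ∈ Finset.range N, ‖T f n‖ := by
  by_contra hn
  push Not at hn
  have hstep : ∀ (N : ℕ) (β : Ordinal.{u}), β < lam → ∃ (f : COrd lam) (β' : Ordinal.{u}),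
      β' < lam ∧ Supp f β β' ∧ ‖f‖ = 1 ∧ ∑ n ∈ Finset.range N, ‖T f n‖ ^ 2 ≤ c ^ 2 / 4 := by
    intro N β hβ
    obtain ⟨f, β', h1, h2, h3⟩ := hn N β (c / 2) hβ (by positivity)
    have hs0 : 0 ≤ ∑ n ∈ Finset.range N, ‖T f n‖ := Finset.sum_nonneg fun _ _ => norm_nonneg _
    have hf : 0 < ‖f‖ := by
      by_contra h
      have : ‖f‖ = 0 := le_antisymm (not_lt.1 h) (norm_nonneg _)
      rw [this] at h3
      linarith
    refine ⟨‖f‖⁻¹ • f, β', h1, fun y hy hn => by rw [ext_smul, h2 y hy hn, mul_zero],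
      by rw [norm_smul, norm_inv, norm_norm, inv_mul_cancel₀ hf.ne'], ?_⟩
    have h4 : ∑ n ∈ Finset.range N, ‖T (‖f‖⁻¹ • f) n‖ ≤ c / 2 := by
      have : ∀ n, ‖T (‖f‖⁻¹ • f) n‖ = ‖f‖⁻¹ * ‖T f n‖ := by
        intro n
        rw [map_smul, lp.coeFn_smul, Pi.smul_apply, norm_smul, norm_inv, norm_norm]
      simp only [this]
      rw [← Finset.mul_sum, inv_mul_le_iff₀ hf]
      linarith
    have h5 := Finset.sum_sq_le_sq_sum_of_nonneg (s := Finset.range N)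
      (f := fun n => ‖T (‖f‖⁻¹ • f) n‖) fun _ _ => norm_nonneg _
    have h6 : 0 ≤ ∑ n ∈ Finset.range N, ‖T (‖f‖⁻¹ • f) n‖ :=
      Finset.sum_nonneg fun _ _ => norm_nonneg _
    nlinarith
  have key : ∀ m : ℕ, ∃ (β : Ordinal.{u}) (h : COrd lam), β < lam ∧
      (∀ y, y ≤ lam → β < y → ext h y = 0) ∧ ‖h‖ ≤ 1 ∧ m * c ^ 2 / 2 ≤ ‖T h‖ ^ 2 := by
    intro m
    induction m with
    | zero => exact ⟨0, 0, hlam, fun _ _ _ => rfl, by simp, by simp⟩
    | succ m ih =>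
      obtain ⟨β, h, hβ, hsupp, hh, hm⟩ := ih
      obtain ⟨N, hN⟩ : ∃ N, ‖T h‖ ^ 2 - c ^ 2 / 4 < ∑ n ∈ Finset.range N, ‖T h n‖ ^ 2 :=
        ((hasSum_sq (T h)).tendsto_sum_nat.eventually
          (lt_mem_nhds (show ‖T h‖ ^ 2 - c ^ 2 / 4 < ‖T h‖ ^ 2 by
            have : 0 < c ^ 2 / 4 := by positivity
            linarith))).exists
      obtain ⟨f, β', hβ', hf, hf1, hf2⟩ := hstep N β hβ
      have hsign := lp_sign (T h) (T f) N
      have hc2 : c ^ 2 ≤ ‖T f‖ ^ 2 := by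
        have := hT f
        rw [hf1, mul_one] at this
        exact pow_le_pow_left₀ hc.le this 2
      have hgen : ∀ σ : ℝ, |σ| = 1 → (∀ y, y ≤ lam → max β β' < y → ext (h + σ • f) y = 0) ∧
          ‖h + σ • f‖ ≤ 1 := by
        intro σ hσ
        constructor
        · intro y hy hlt
          rw [ext_add, ext_smul, hsupp y hy ((le_max_left _ _).trans_lt hlt), hf y hy]
          · simp
          · rintro ⟨-, h2⟩
            exact absurd ((le_max_right _ _).trans_lt hlt) (not_lt.2 h2)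
        · refine norm_le_of_ext _ fun y hy => ?_
          rw [ext_add, ext_smul]
          rcases le_or_gt y β with h1 | h1
          · rw [hf y hy fun h2 => absurd h2.1 (not_lt.2 h1)]
            simpa using (abs_ext_le h y).trans hh
          · rw [hsupp y hy h1, zero_add, abs_mul, hσ, one_mul]
            exact (abs_ext_le f y).trans hf1.le
      by_cases hcase : ‖T h - T f‖ ^ 2 ≤ ‖T h + T f‖ ^ 2
      · refine ⟨max β β', h + (1 : ℝ) • f, max_lt hβ hβ', (hgen 1 (by simp)).1,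
          (hgen 1 (by simp)).2, ?_⟩
        rw [map_add, map_smul, one_smul]
        push_cast
        linarith
      · refine ⟨max β β', h + (-1 : ℝ) • f, max_lt hβ hβ', (hgen (-1) (by simp)).1,
          (hgen (-1) (by simp)).2, ?_⟩
        rw [map_add, map_smul, neg_one_smul, ← sub_eq_add_neg]
        push_cast
        linarith
  obtain ⟨m, hm⟩ := exists_nat_gt (2 * ‖T‖ ^ 2 / c ^ 2)
  obtain ⟨β, h, -, -, hh, h1⟩ := key m
  have h2 : ‖T h‖ ≤ ‖T‖ := (T.le_opNorm _).trans (mul_le_of_le_one_right (norm_nonneg _) hh)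
  have h3 : ‖T h‖ ^ 2 ≤ ‖T‖ ^ 2 := pow_le_pow_left₀ (norm_nonneg _) h2 2
  rw [div_lt_iff₀ (by positivity)] at hm
  linarith

theorem not_lb_lp {lam : Ordinal.{u}} (hadd : IsPrincipal (· + ·) lam)
    (hmul : IsPrincipal (· * ·) lam) (hω : ω < lam) (b : ℕ → Ordinal.{u}) (hb : ∀ n, b n < lam) :
    ¬ LB (COrd lam) (lp (fun n => COrd (b n)) 2) := by
  rintro ⟨T, c, hc, hT⟩
  obtain ⟨N, β₀, δ, hβ, hδ, h⟩ := hump (omega0_pos.trans hω) T hc hT
  have h1 : (1 : Ordinal.{u}) < lam := one_lt_omega0.trans hω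
  have key : ∀ M : ℕ, ∃ θ : Ordinal.{u}, ω ≤ θ ∧ θ < lam ∧
      ∃ S : lp (fun n => COrd (b n)) 2 →L[ℝ] COrd θ, ∀ ξ, ∀ n < M, ‖ξ n‖ ≤ ‖S ξ‖ := by
    intro M
    induction M with
    | zero => exact ⟨ω, le_rfl, hω, 0, fun _ _ h => absurd h (Nat.not_lt_zero _)⟩
    | succ M ih =>
      obtain ⟨θ, h2, h3, S, hS⟩ := ih
      obtain ⟨S', hS'⟩ := join S (lp.evalCLM ℝ (fun n => COrd (b n)) 2 M)
      refine ⟨θ + 1 + b M, h2.trans (le_self_add.trans le_self_add), hadd (hadd h3 h1) (hb M),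
        S', fun ξ n hn => ?_⟩
      rcases Nat.lt_succ_iff_lt_or_eq.1 hn with h4 | rfl
      · exact (hS ξ n h4).trans (hS' ξ).1
      · exact (hS' ξ).2.1
  obtain ⟨θ, h2, h3, S, hS⟩ := key N
  refine bp hadd hmul h2 h3 hβ (S.comp T) (δ₀ := δ / (N + 1)) (by positivity) fun f β' h4 h5 => ?_
  have h6 := h f β' h4 h5
  have h7 : ∑ n ∈ Finset.range N, ‖T f n‖ ≤ N * ‖S (T f)‖ := by
    have := Finset.sum_le_card_nsmul (Finset.range N) (fun n => ‖T f n‖) ‖S (T f)‖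
      fun n hn => hS _ n (Finset.mem_range.1 hn)
    simpa using this
  rw [ContinuousLinearMap.comp_apply, div_mul_eq_mul_div, div_le_iff₀ (by positivity)]
  nlinarith [norm_nonneg (S (T f))]

end Pool.Agent.H990Z.InjT
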