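import Mathlib

/-!
Definitions for the problem on copies of `C(ω^(ω^α))` in injective tensor products.
-/

namespace Pool.Agent.H990Z.InjT

open scoped TensorProduct

universe u v w

/-- `C(ξ)`: the continuous real functions, with the sup norm, on the compact ordinal
interval `[0, ξ]` with the order topology. -/
abbrev COrd (ξ : Ordinal.{u}) : Type (u + 1) := C(Set.Icc (0 : Ordinal.{u}) ξ, ℝ)

section Tensor

variable {X : Type v} {Y : Type w} [NormedAddCommGroup X] [NormedSpace ℝ X]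
  [NormedAddCommGroup Y] [NormedSpace ℝ Y]

/-- The linear functional `∑ xᵢ ⊗ yᵢ ↦ ∑ φ(xᵢ) ψ(yᵢ)` on the algebraic tensor product. -/
noncomputable def pairing (φ : X →L[ℝ] ℝ) (ψ : Y →L[ℝ] ℝ) : X ⊗[ℝ] Y →ₗ[ℝ] ℝ :=
  TensorProduct.lift ((LinearMap.mul ℝ ℝ).compl₁₂ (φ : X →ₗ[ℝ] ℝ) (ψ : Y →ₗ[ℝ] ℝ))

@[simp] theorem pairing_tmul (φ : X →L[ℝ] ℝ) (ψ : Y →L[ℝ] ℝ) (x : X) (y : Y) :
    pairing φ ψ (x ⊗ₜ[ℝ] y) = φ x * ψ y := by
  simp [pairing]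

/-- The values `|∑ φ(xᵢ) ψ(yᵢ)|` for `‖φ‖ ≤ 1`, `‖ψ‖ ≤ 1`. -/
def injSet (t : X ⊗[ℝ] Y) : Set ℝ :=
  {r | ∃ (φ : X →L[ℝ] ℝ) (ψ : Y →L[ℝ] ℝ), ‖φ‖ ≤ 1 ∧ ‖ψ‖ ≤ 1 ∧ r = |pairing φ ψ t|}

/-- The injective norm `sup {|∑ φ(xᵢ) ψ(yᵢ)| : ‖φ‖ ≤ 1, ‖ψ‖ ≤ 1}`. -/
noncomputable def injNorm (t : X ⊗[ℝ] Y) : ℝ := sSup (injSet t)

theorem injSet_nonempty (t : X ⊗[ℝ] Y) : (injSet t).Nonempty :=
  ⟨_, 0, 0, by simp, by simp, rfl⟩

theorem injSet_bdd (t : X ⊗[ℝ] Y) : BddAbove (injSet t) := by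
  induction t using TensorProduct.induction_on with
  | zero => exact ⟨0, by rintro r ⟨φ, ψ, -, -, rfl⟩; simp⟩
  | tmul x y =>
    refine ⟨‖x‖ * ‖y‖, ?_⟩
    rintro r ⟨φ, ψ, hφ, hψ, rfl⟩
    rw [pairing_tmul, abs_mul]
    have h1 : |φ x| ≤ ‖x‖ := (φ.le_opNorm x).trans (mul_le_of_le_one_left (norm_nonneg _) hφ)
    have h2 : |ψ y| ≤ ‖y‖ := (ψ.le_opNorm y).trans (mul_le_of_le_one_left (norm_nonneg _) hψ)
    exact mul_le_mul h1 h2 (abs_nonneg _) (norm_nonneg _)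
  | add s t hs ht =>
    obtain ⟨a, ha⟩ := hs
    obtain ⟨b, hb⟩ := ht
    refine ⟨a + b, ?_⟩
    rintro r ⟨φ, ψ, hφ, hψ, rfl⟩
    rw [map_add]
    exact (abs_add_le _ _).trans (add_le_add (ha ⟨φ, ψ, hφ, hψ, rfl⟩) (hb ⟨φ, ψ, hφ, hψ, rfl⟩))

theorem abs_pairing_le (φ : X →L[ℝ] ℝ) (ψ : Y →L[ℝ] ℝ) (hφ : ‖φ‖ ≤ 1) (hψ : ‖ψ‖ ≤ 1)
    (t : X ⊗[ℝ] Y) : |pairing φ ψ t| ≤ injNorm t :=
  le_csSup (injSet_bdd t) ⟨φ, ψ, hφ, hψ, rfl⟩

theorem injNorm_le {t : X ⊗[ℝ] Y} {c : ℝ}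
    (h : ∀ (φ : X →L[ℝ] ℝ) (ψ : Y →L[ℝ] ℝ), ‖φ‖ ≤ 1 → ‖ψ‖ ≤ 1 → |pairing φ ψ t| ≤ c) :
    injNorm t ≤ c :=
  csSup_le (injSet_nonempty t) (by rintro r ⟨φ, ψ, hφ, hψ, rfl⟩; exact h φ ψ hφ hψ)

theorem injNorm_smul_le (c : ℝ) (t : X ⊗[ℝ] Y) : injNorm (c • t) ≤ |c| * injNorm t :=
  injNorm_le fun φ ψ hφ hψ => by
    rw [map_smul, smul_eq_mul, abs_mul]
    exact mul_le_mul_of_nonneg_left (abs_pairing_le φ ψ hφ hψ t) (abs_nonneg _)

variable (X Y)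

/-- The algebraic tensor product `X ⊗ Y`, to be normed by `injNorm`. -/
def InjAlg : Type (max v w) := X ⊗[ℝ] Y

noncomputable instance : AddCommGroup (InjAlg X Y) := inferInstanceAs (AddCommGroup (X ⊗[ℝ] Y))

noncomputable instance : Module ℝ (InjAlg X Y) := inferInstanceAs (Module ℝ (X ⊗[ℝ] Y))

/-- `X ⊗ Y` with the norm `injNorm`. -/
noncomputable instance : SeminormedAddCommGroup (InjAlg X Y) :=
  AddGroupSeminorm.toSeminormedAddCommGroup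
    { toFun := fun t => injNorm (X := X) (Y := Y) t
      map_zero' := le_antisymm (injNorm_le (t := (0 : X ⊗[ℝ] Y)) fun φ ψ _ _ => by simp)
        ((abs_nonneg _).trans (abs_pairing_le 0 0 (by simp) (by simp) _))
      add_le' := fun (s t : X ⊗[ℝ] Y) => injNorm_le (t := s + t) fun φ ψ hφ hψ => by
        rw [map_add]
        exact (abs_add_le _ _).trans
          (add_le_add (abs_pairing_le φ ψ hφ hψ s) (abs_pairing_le φ ψ hφ hψ t))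
      neg' := fun (t : X ⊗[ℝ] Y) => by
        have h : injSet (-t) = injSet t := by
          ext r
          simp only [injSet, map_neg, abs_neg]
        exact congrArg sSup h }

noncomputable instance : NormedSpace ℝ (InjAlg X Y) where
  norm_smul_le c t := injNorm_smul_le (X := X) (Y := Y) c t

/-- The injective tensor product: the completion of `X ⊗ Y` under the injective norm. -/
abbrev InjTensor : Type (max v w) := UniformSpace.Completion (InjAlg X Y)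

end Tensor

section Embed

/-- `E` is isomorphic to a closed subspace of `Z`. -/
def Embeds (E : Type v) (Z : Type w) [NormedAddCommGroup E] [NormedSpace ℝ E]
    [NormedAddCommGroup Z] [NormedSpace ℝ Z] : Prop :=
  ∃ W : Submodule ℝ Z, IsClosed (W : Set Z) ∧ Nonempty (E ≃L[ℝ] W)

/-- `E` is isomorphic to a complemented closed subspace of `Z`. -/
def EmbedsCompl (E : Type v) (Z : Type w) [NormedAddCommGroup E] [NormedSpace ℝ E]
    [NormedAddCommGroup Z] [NormedSpace ℝ Z] : Prop :=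
  ∃ W : Submodule ℝ Z, IsClosed (W : Set Z) ∧ W.ClosedComplemented ∧ Nonempty (E ≃L[ℝ] W)

/-- There are isomorphisms `T n` of `E n` onto closed subspaces of `Z` with
`sup ‖T n‖ ‖(T n)⁻¹‖ < ∞`. -/
def EmbedsUnif (E : ℕ → Type v) (Z : Type w) [∀ n, NormedAddCommGroup (E n)]
    [∀ n, NormedSpace ℝ (E n)] [NormedAddCommGroup Z] [NormedSpace ℝ Z] : Prop :=
  ∃ (W : ℕ → Submodule ℝ Z) (T : ∀ n, E n ≃L[ℝ] W n) (C : ℝ),
    (∀ n, IsClosed (W n : Set Z)) ∧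
      ∀ n, ‖(T n : E n →L[ℝ] W n)‖ * ‖((T n).symm : W n →L[ℝ] E n)‖ ≤ C

end Embed

end Pool.Agent.H990Z.InjT
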