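import Pool.Agent.H990Z.InjT.BP

/-!
The diagonal of the injective tensor product of an `ℓ²`-sum with `ℓ²`.
-/

namespace Pool.Agent.H990Z.InjT

open Ordinal Set Topology
open scoped TensorProduct

universe u v w

theorem embedsCompl_of_leftInverse {E : Type v} {Z : Type w} [NormedAddCommGroup E]
    [NormedSpace ℝ E] [NormedAddCommGroup Z] [NormedSpace ℝ Z] (J : E →L[ℝ] Z) (R : Z →L[ℝ] E)
    (h : ∀ x, R (J x) = x) : EmbedsCompl E Z := by
  refine ⟨LinearMap.range (J : E →ₗ[ℝ] Z), ?_, ?_, ⟨?_⟩⟩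
  · have : ((LinearMap.range (J : E →ₗ[ℝ] Z) : Submodule ℝ Z) : Set Z) = {z | J (R z) = z} := by
      ext z
      constructor
      · rintro ⟨x, rfl⟩
        show J (R (J x)) = J x
        rw [h]
      · intro hz
        exact ⟨R z, hz⟩
    rw [this]
    exact isClosed_eq (J.continuous.comp R.continuous) continuous_id
  · refine ⟨(J.comp R).codRestrict _ fun z => ⟨R z, rfl⟩, ?_⟩
    rintro ⟨z, x, rfl⟩
    apply Subtype.ext
    show J (R (J x)) = J x
    rw [h]
  · refine ContinuousLinearEquiv.equivOfInverse (J.codRestrict _ fun x => ⟨x, rfl⟩)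
      (R.comp (Submodule.subtypeL _)) (fun x => h x) ?_
    rintro ⟨z, x, rfl⟩
    apply Subtype.ext
    show J (R (J x)) = J x
    rw [h]

theorem norm_sum_single_sq {E : ℕ → Type v} [∀ n, NormedAddCommGroup (E n)] (g : ∀ n, E n)
    (s : Finset ℕ) : ‖∑ n ∈ s, (lp.single 2 n (g n) : lp E 2)‖ ^ 2 = ∑ n ∈ s, ‖g n‖ ^ 2 := by
  have := lp.norm_sum_single (p := 2) (by norm_num) g s
  simpa using this

theorem diag_le {E : ℕ → Type v} [∀ n, NormedAddCommGroup (E n)] [∀ n, NormedSpace ℝ (E n)]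
    (g : ∀ n, E n) (s : Finset ℕ) {M : ℝ} (hM : 0 ≤ M) (h : ∀ n ∈ s, ‖g n‖ ≤ M) :
    injNorm (∑ n ∈ s, (lp.single 2 n (g n) : lp E 2) ⊗ₜ[ℝ]
      (lp.single 2 n (1 : ℝ) : lp (fun _ : ℕ => ℝ) 2)) ≤ M := by
  refine injNorm_le fun φ ψ hφ hψ => ?_
  set a : ℕ → ℝ := fun n => ψ (lp.single 2 n (1 : ℝ)) with ha
  have hQ : ∑ n ∈ s, a n ^ 2 ≤ 1 := by
    set v : lp (fun _ : ℕ => ℝ) 2 := ∑ n ∈ s, lp.single 2 n (a n) with hv
    have h1 : ‖v‖ ^ 2 = ∑ n ∈ s, a n ^ 2 := by
      rw [hv, norm_sum_single_sq]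
      simp
    have h2 : ψ v = ∑ n ∈ s, a n ^ 2 := by
      rw [hv, map_sum]
      refine Finset.sum_congr rfl fun n _ => ?_
      have : (lp.single 2 n (a n) : lp (fun _ : ℕ => ℝ) 2) = a n • lp.single 2 n (1 : ℝ) := by
        rw [← lp.single_smul]; simp
      rw [this, map_smul, _root_.smul_eq_mul, sq]
    have h3 : ψ v ≤ ‖v‖ :=
      (le_abs_self _).trans ((ψ.le_opNorm v).trans (mul_le_of_le_one_left (norm_nonneg _) hψ))
    have h4 := norm_nonneg v
    nlinarith
  have h1 : pairing φ ψ (∑ n ∈ s, (lp.single 2 n (g n) : lp E 2) ⊗ₜ[ℝ]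
      (lp.single 2 n (1 : ℝ) : lp (fun _ : ℕ => ℝ) 2)) =
      φ (∑ n ∈ s, (lp.single 2 n (a n • g n) : lp E 2)) := by
    rw [map_sum, map_sum]
    refine Finset.sum_congr rfl fun n _ => ?_
    rw [pairing_tmul, lp.single_smul, map_smul, _root_.smul_eq_mul, mul_comm]
  rw [h1]
  refine ((φ.le_opNorm _).trans (mul_le_of_le_one_left (norm_nonneg _) hφ)).trans ?_
  refine (pow_le_pow_iff_left₀ (norm_nonneg _) hM two_ne_zero).mp ?_
  rw [norm_sum_single_sq (fun n => a n • g n)]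
  calc ∑ n ∈ s, ‖a n • g n‖ ^ 2 ≤ ∑ n ∈ s, a n ^ 2 * M ^ 2 := by
        refine Finset.sum_le_sum fun n hn => ?_
        rw [norm_smul, mul_pow, Real.norm_eq_abs, sq_abs]
        exact mul_le_mul_of_nonneg_left (pow_le_pow_left₀ (norm_nonneg _) (h n hn) 2) (sq_nonneg _)
    _ = (∑ n ∈ s, a n ^ 2) * M ^ 2 := by rw [Finset.sum_mul]
    _ ≤ M ^ 2 := mul_le_of_le_one_left (sq_nonneg _) hQ

/-- Evaluation at an ordinal. -/
noncomputable def evalAt (γ y : Ordinal.{u}) : COrd γ →L[ℝ] ℝ :=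
  ContinuousMap.evalCLM ℝ (projIcc (0 : Ordinal.{u}) γ zero_le y)

theorem evalAt_apply {γ : Ordinal.{u}} (y : Ordinal.{u}) (g : COrd γ) :
    evalAt γ y g = ext g y := rfl

/-- The pieces `(b (n-1), b n]`. -/
def piece (b : ℕ → Ordinal.{u}) : ℕ → Set Ordinal.{u}
  | 0 => Iic (b 0)
  | n + 1 => Ioc (b n) (b (n + 1))

theorem piece_clopen (b : ℕ → Ordinal.{u}) : ∀ n, IsClopen (piece b n)
  | 0 => isClopen_Iic' _
  | _ + 1 => isClopen_Ioc' _ _

theorem piece_le {b : ℕ → Ordinal.{u}} {y : Ordinal.{u}} : ∀ {n}, y ∈ piece b n → y ≤ b n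
  | 0, h => h
  | _ + 1, h => h.2

theorem piece_lt {b : ℕ → Ordinal.{u}} (hb : Monotone b) {y : Ordinal.{u}} {m n : ℕ}
    (hmn : m < n) (h : y ∈ piece b n) : b m < y := by
  obtain ⟨k, rfl⟩ : ∃ k, n = k + 1 := ⟨n - 1, by omega⟩
  exact (hb (by omega)).trans_lt h.1

theorem piece_unique {b : ℕ → Ordinal.{u}} (hb : Monotone b) {y : Ordinal.{u}} {m n : ℕ}
    (hm : y ∈ piece b m) (hn : y ∈ piece b n) : m = n := by
  rcases lt_trichotomy m n with h | h | h
  · exact absurd (piece_lt hb h hn) (not_lt.2 (piece_le hm))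
  · exact h
  · exact absurd (piece_lt hb h hm) (not_lt.2 (piece_le hn))

theorem piece_exists {b : ℕ → Ordinal.{u}} {y : Ordinal.{u}} (h : ∃ n, y ≤ b n) :
    ∃ n, y ∈ piece b n := by
  classical
  have h1 := Nat.find_spec h
  rcases h0 : Nat.find h with _ | k
  · rw [h0] at h1
    exact ⟨0, h1⟩
  · rw [h0] at h1
    exact ⟨k + 1, not_le.1 (Nat.find_min h (by omega)), h1⟩

/-- The canonical map from the algebraic tensor product to its completion. -/
noncomputable def toC {X : Type v} {Y : Type w} [NormedAddCommGroup X] [NormedSpace ℝ X]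
    [NormedAddCommGroup Y] [NormedSpace ℝ Y] : X ⊗[ℝ] Y →ₗ[ℝ] InjTensor X Y :=
  (UniformSpace.Completion.toComplL : InjAlg X Y →L[ℝ] InjTensor X Y).toLinearMap

theorem toC_apply {X : Type v} {Y : Type w} [NormedAddCommGroup X] [NormedSpace ℝ X]
    [NormedAddCommGroup Y] [NormedSpace ℝ Y] (t : X ⊗[ℝ] Y) :
    toC t = UniformSpace.Completion.coe' (α := InjAlg X Y) t := rfl

theorem norm_toC {X : Type v} {Y : Type w} [NormedAddCommGroup X] [NormedSpace ℝ X]
    [NormedAddCommGroup Y] [NormedSpace ℝ Y] (t : X ⊗[ℝ] Y) : ‖toC t‖ = injNorm t :=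
  UniformSpace.Completion.norm_coe (E := InjAlg X Y) t

section Main

variable {lam : Ordinal.{u}} {b : ℕ → Ordinal.{u}}

theorem norm_evalAt_comp_le (b : ℕ → Ordinal.{u}) (m : ℕ) (y : Ordinal.{u}) :
    ‖(evalAt (b m) y).comp (lp.evalCLM ℝ (fun n => COrd (b n)) 2 m)‖ ≤ 1 := by
  refine ContinuousLinearMap.opNorm_le_bound _ zero_le_one fun ξ => ?_
  rw [one_mul]
  exact (abs_ext_le (ξ m) y).trans (lp.norm_apply_le_norm (by norm_num) ξ m)

theorem norm_coord_le (m : ℕ) : ‖lp.evalCLM ℝ (fun _ : ℕ => ℝ) 2 m‖ ≤ 1 := by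
  refine ContinuousLinearMap.opNorm_le_bound _ zero_le_one fun η => ?_
  rw [one_mul]
  exact lp.norm_apply_le_norm (by norm_num) η m

theorem exists_R (lam : Ordinal.{u}) (hb : Monotone b) :
    ∃ R : InjTensor (lp (fun n => COrd (b n)) 2) (lp (fun _ : ℕ => ℝ) 2) →L[ℝ] COrd lam,
      ∀ (ξ : lp (fun n => COrd (b n)) 2) (η : lp (fun _ : ℕ => ℝ) 2) (y : Ordinal.{u}), y ≤ lam →
        ext (R (toC (ξ ⊗ₜ[ℝ] η))) y =
          ∑' n, η n * (piece b n).indicator (ext (ξ n)) y + ext (ξ 1) 0 * η 1 := by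
  have h1 : ∀ y : Ordinal.{u}, ∃ (φ : lp (fun n => COrd (b n)) 2 →L[ℝ] ℝ)
      (ψ : lp (fun _ : ℕ => ℝ) 2 →L[ℝ] ℝ), ‖φ‖ ≤ 1 ∧ ‖ψ‖ ≤ 1 ∧
      ∀ ξ η, φ ξ * ψ η = ∑' n, η n * (piece b n).indicator (ext (ξ n)) y := by
    intro y
    by_cases h : ∃ m, y ∈ piece b m
    · obtain ⟨m, hm⟩ := h
      refine ⟨_, _, norm_evalAt_comp_le b m y, norm_coord_le m, fun ξ η => ?_⟩
      rw [tsum_eq_single m, indicator_of_mem hm, mul_comm]
      · rfl
      · intro n hn
        rw [indicator_of_notMem fun h => hn (piece_unique hb h hm), mul_zero]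
    · push Not at h
      refine ⟨0, 0, ContinuousLinearMap.opNorm_le_bound _ zero_le_one fun _ => by simp,
        ContinuousLinearMap.opNorm_le_bound _ zero_le_one fun _ => by simp, fun ξ η => ?_⟩
      simp [indicator_of_notMem (h _)]
  choose φ ψ hφ hψ hφψ using h1
  have hcont : ∀ t : lp (fun n => COrd (b n)) 2 ⊗[ℝ] lp (fun _ : ℕ => ℝ) 2,
      Continuous fun y : Ordinal.{u} => pairing (φ y) (ψ y) t := by
    intro t
    induction t using TensorProduct.induction_on with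
    | zero => simpa using continuous_const
    | tmul ξ η =>
      simp only [pairing_tmul, hφψ]
      refine continuous_tsum (u := fun n => (‖η n‖ ^ 2 + ‖ξ n‖ ^ 2) / 2) (fun n => ?_) ?_ ?_
      · exact continuous_const.mul ((piece_clopen b n).continuous_indicator (ext_cont _))
      · exact ((hasSum_sq η).summable.add (hasSum_sq ξ).summable).div_const 2
      · intro n y
        have h2 : ‖(piece b n).indicator (ext (ξ n)) y‖ ≤ ‖ξ n‖ :=
          (norm_indicator_le_norm_self _ _).trans (abs_ext_le _ _)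
        rw [norm_mul]
        have h3 := mul_le_mul_of_nonneg_left h2 (norm_nonneg (η n))
        nlinarith [sq_nonneg (‖η n‖ - ‖ξ n‖)]
    | add s t hs ht => simp only [map_add]; exact hs.add ht
  set φ₀ := (evalAt (b 1) 0).comp (lp.evalCLM ℝ (fun n => COrd (b n)) 2 1) with hφ₀
  set ψ₀ := lp.evalCLM ℝ (fun _ : ℕ => ℝ) 2 1 with hψ₀
  let R₀ : InjAlg (lp (fun n => COrd (b n)) 2) (lp (fun _ : ℕ => ℝ) 2) →ₗ[ℝ] COrd lam :=
    { toFun := fun t => ⟨fun y => pairing (φ y) (ψ y) t + pairing φ₀ ψ₀ t,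
        ((hcont t).comp continuous_subtype_val).add continuous_const⟩
      map_add' := fun s t => by
        ext y
        have e1 := (pairing (φ y) (ψ y)).map_add s t
        have e2 := (pairing φ₀ ψ₀).map_add s t
        show pairing (φ y) (ψ y) (s + t) + pairing φ₀ ψ₀ (s + t) =
          (pairing (φ y) (ψ y) s + pairing φ₀ ψ₀ s) + (pairing (φ y) (ψ y) t + pairing φ₀ ψ₀ t)
        exact (congrArg₂ (· + ·) e1 e2).trans (by ring)
      map_smul' := fun c t => by
        ext y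
        have e1 := (pairing (φ y) (ψ y)).map_smul c t
        have e2 := (pairing φ₀ ψ₀).map_smul c t
        show pairing (φ y) (ψ y) (c • t) + pairing φ₀ ψ₀ (c • t) =
          c * (pairing (φ y) (ψ y) t + pairing φ₀ ψ₀ t)
        exact (congrArg₂ (· + ·) e1 e2).trans (mul_add c _ _).symm }
  have hR₀ : ∀ t, ‖R₀ t‖ ≤ 2 * ‖t‖ := by
    intro t
    refine (ContinuousMap.norm_le _ (by positivity)).2 fun y => ?_
    have e1 : |pairing (φ y) (ψ y) t| ≤ ‖t‖ := abs_pairing_le _ _ (hφ y) (hψ y) t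
    have e2 : |pairing φ₀ ψ₀ t| ≤ ‖t‖ :=
      abs_pairing_le _ _ (norm_evalAt_comp_le b 1 0) (norm_coord_le 1) t
    have e3 := abs_add_le (pairing (φ y) (ψ y) t) (pairing φ₀ ψ₀ t)
    show |pairing (φ y) (ψ y) t + pairing φ₀ ψ₀ t| ≤ _
    linarith
  refine ⟨(R₀.mkContinuous 2 hR₀).fromCompletion, fun ξ η y hy => ?_⟩
  rw [toC_apply, ContinuousLinearMap.fromCompletion_apply_coe, ext_of_le _ hy]
  show pairing (φ y) (ψ y) (ξ ⊗ₜ[ℝ] η) + pairing φ₀ ψ₀ (ξ ⊗ₜ[ℝ] η) = _
  rw [pairing_tmul, pairing_tmul, hφψ]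
  rfl

theorem exists_G (hb : Monotone b) (hlt : ∀ n, b n < lam) (hcof : ∀ y < lam, ∃ n, y ≤ b n) :
    ∃ G : ∀ n, COrd lam →L[ℝ] COrd (b n), (∀ n f, ‖G n f‖ ≤ 3 * ‖f‖) ∧
      (∀ f (ε : ℝ), 0 < ε → ∃ N, ∀ n, N ≤ n → ‖G n f‖ ≤ ε) ∧
      (∀ n f y, y ∈ piece b n → ext (G n f) y = ext f y - ext f lam) ∧
      (∀ f, ext (G 1 f) 0 = ext f lam) := by
  have h0 : IsClopen ({0} : Set Ordinal.{u}) := by
    have : ({0} : Set Ordinal.{u}) = Iic 0 := by ext x; simp
    rw [this]; exact isClopen_Iic' 0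
  let G : ∀ n, COrd lam →L[ℝ] COrd (b n) := fun n =>
    pc lam (b n) id continuous_id _ (piece_clopen b n) -
      pc lam (b n) (fun _ => lam) continuous_const _ (piece_clopen b n) +
      if n = 1 then pc lam (b n) (fun _ => lam) continuous_const _ h0 else 0
  have hG : ∀ n f y, y ≤ b n → ext (G n f) y =
      (piece b n).indicator (fun z => ext f z - ext f lam) y +
        if n = 1 ∧ y = 0 then ext f lam else 0 := by
    intro n f y hy
    simp only [G, add_apply, sub_apply, ext_add, ext_sub]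
    rw [ext_pc _ hy, ext_pc _ hy]
    congr 1
    · by_cases h : y ∈ piece b n <;> simp [h]
    · by_cases h : n = 1
      · rw [if_pos h, ext_pc _ hy]
        by_cases h' : y = 0 <;> simp [h, h']
      · rw [if_neg h]
        simp only [h, false_and, if_false]
        rfl
  have hnot : (0 : Ordinal.{u}) ∉ piece b 1 := fun h => absurd h.1 (not_lt.2 zero_le)
  refine ⟨G, fun n f => ?_, fun f ε hε => ?_, fun n f y hy => ?_, fun f => ?_⟩
  · refine norm_le_of_ext _ fun y hy => ?_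
    rw [hG n f y hy]
    have e1 := abs_le.1 (abs_ext_le f y)
    have e2 := abs_le.1 (abs_ext_le f lam)
    have e3 := norm_nonneg f
    rw [abs_le]
    by_cases h : y ∈ piece b n <;> simp only [h, indicator_of_mem, indicator_of_notMem,
      not_false_eq_true] <;> split_ifs <;> constructor <;> linarith [e1.1, e1.2, e2.1, e2.2]
  · have hl : 0 < lam := zero_le.trans_lt (hlt 0)
    obtain ⟨γ', hγ', htail⟩ := exists_tail hl
      (f - pc lam lam (fun _ => lam) continuous_const univ isClopen_univ f) (c := ε)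
      (by rw [ext_sub, ext_pc _ le_rfl]; simpa using hε)
    obtain ⟨m, hm⟩ := hcof γ' hγ'
    refine ⟨m + 2, fun n hn => norm_le_of_ext _ fun y hy => ?_⟩
    rw [hG n f y hy, if_neg (by omega), add_zero]
    by_cases h : y ∈ piece b n
    · rw [indicator_of_mem h]
      have h1 : y ≤ lam := hy.trans (hlt n).le
      have := htail y (hm.trans_lt (piece_lt hb (by omega) h)) h1
      rw [ext_sub, ext_pc _ h1] at this
      simpa using this.le
    · rw [indicator_of_notMem h]
      simpa using hε.le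
  · rw [hG n f y (piece_le hy), indicator_of_mem hy, if_neg, add_zero]
    rintro ⟨rfl, rfl⟩
    exact hnot hy
  · rw [hG 1 f 0 zero_le, indicator_of_notMem hnot]
    simp

theorem embedsCompl_main (hb : Monotone b) (hlt : ∀ n, b n < lam)
    (hcof : ∀ y < lam, ∃ n, y ≤ b n) :
    EmbedsCompl (COrd lam) (InjTensor (lp (fun n => COrd (b n)) 2) (lp (fun _ : ℕ => ℝ) 2)) := by
  obtain ⟨R, hR⟩ := exists_R lam hb
  obtain ⟨G, hG1, hG2, hG3, hG4⟩ := exists_G hb hlt hcof
  let D : ℕ → COrd lam → InjTensor (lp (fun n => COrd (b n)) 2) (lp (fun _ : ℕ => ℝ) 2) :=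
    fun n f => toC ((lp.single 2 n (G n f) : lp (fun n => COrd (b n)) 2) ⊗ₜ[ℝ]
      (lp.single 2 n (1 : ℝ) : lp (fun _ : ℕ => ℝ) 2))
  have hD : ∀ f (s : Finset ℕ) (M : ℝ), 0 ≤ M → (∀ n ∈ s, ‖G n f‖ ≤ M) →
      ‖∑ n ∈ s, D n f‖ ≤ M := by
    intro f s M hM h
    simp only [D]
    rw [← map_sum, norm_toC]
    exact diag_le (fun n => G n f) s hM h
  have hsum : ∀ f, Summable fun n => D n f := by
    intro f
    refine summable_iff_vanishing_norm.2 fun ε hε => ?_
    obtain ⟨N, hN⟩ := hG2 f (ε / 2) (by positivity)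
    refine ⟨Finset.range N, fun t ht => lt_of_le_of_lt (hD f t (ε / 2) (by positivity) ?_)
      (by linarith)⟩
    intro n hn
    refine hN n (not_lt.1 fun h => ?_)
    exact Finset.disjoint_left.1 ht hn (Finset.mem_range.2 h)
  have hDadd : ∀ n f g, D n (f + g) = D n f + D n g := by
    intro n f g
    simp only [D]
    rw [map_add, lp.single_add, TensorProduct.add_tmul, map_add]
  have hDsmul : ∀ n (c : ℝ) f, D n (c • f) = c • D n f := by
    intro n c f
    simp only [D]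
    rw [map_smul, lp.single_smul, ← TensorProduct.smul_tmul', map_smul]
  let J₀ : COrd lam →ₗ[ℝ] InjTensor (lp (fun n => COrd (b n)) 2) (lp (fun _ : ℕ => ℝ) 2) :=
    { toFun := fun f => ∑' n, D n f
      map_add' := fun f g => by
        simp only [hDadd]
        exact (hsum f).tsum_add (hsum g)
      map_smul' := fun c f => by
        simp only [hDsmul]
        exact (hsum f).tsum_const_smul c }
  have hJ₀ : ∀ f, ‖J₀ f‖ ≤ 3 * ‖f‖ := by
    intro f
    refine le_of_tendsto' (hsum f).hasSum.norm fun s => ?_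
    exact hD f s _ (by positivity) fun n _ => hG1 n f
  refine embedsCompl_of_leftInverse (J₀.mkContinuous 3 hJ₀) R fun f => ?_
  ext y
  rw [← ext_val, ← ext_val]
  have hy : (y : Ordinal.{u}) ≤ lam := y.2.2
  generalize (y : Ordinal.{u}) = z at hy
  have h1 : HasSum (fun n => ext (R (D n f)) z) (ext (R (J₀ f)) z) :=
    ((evalAt lam z).comp R).hasSum (hsum f).hasSum
  have h2 : ∀ n, ext (R (D n f)) z = (piece b n).indicator (fun _ => ext f z - ext f lam) z +
      if n = 1 then ext f lam else 0 := by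
    intro n
    simp only [D]
    rw [hR _ _ z hy, tsum_eq_single n]
    · congr 1
      · simp only [lp.single_apply_self, one_mul]
        by_cases h : z ∈ piece b n
        · rw [indicator_of_mem h, indicator_of_mem h, hG3 n f z h]
        · rw [indicator_of_notMem h, indicator_of_notMem h]
      · by_cases h : n = 1
        · subst h
          simp only [lp.single_apply_self, mul_one, if_true]
          exact hG4 f
        · rw [lp.single_apply_ne (E := fun _ : ℕ => ℝ) 2 n _ (Ne.symm h), if_neg h, mul_zero]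
    · intro k hk
      rw [lp.single_apply_ne (E := fun _ : ℕ => ℝ) 2 n _ hk, zero_mul]
  have h3 : HasSum (fun n => (piece b n).indicator (fun _ => ext f z - ext f lam) z)
      (ext f z - ext f lam) := by
    rcases hy.eq_or_lt with h | h
    · have : ∀ n, z ∉ piece b n := fun n hn => absurd (piece_le hn) (not_le.2 (h ▸ hlt n))
      simp only [indicator_of_notMem (this _)]
      rw [h, _root_.sub_self]
      exact hasSum_zero
    · obtain ⟨m, hm⟩ := piece_exists (hcof z h)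
      have := hasSum_single (f := fun n => (piece b n).indicator (fun _ => ext f z - ext f lam) z)
        m fun n hn => indicator_of_notMem (fun h => hn (piece_unique hb h hm)) _
      simpa only [indicator_of_mem hm] using this
  have h4 : HasSum (fun n : ℕ => if n = 1 then ext f lam else 0) (ext f lam) :=
    hasSum_ite_eq 1 _
  simp only [h2] at h1
  have h5 := h1.unique (h3.add h4)
  rw [sub_add_cancel] at h5
  exact h5

end Main

end Pool.Agent.H990Z.InjT
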