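import Pool.Agent.H990Z.InjT.Ord

/-!
Spaces containing `c₀` do not embed in Hilbert spaces.
-/

namespace Pool.Agent.H990Z.InjT

open Ordinal Set Topology
open scoped ZeroAtInfty

universe u v w

theorem not_lb_hilbert {E : Type v} {H : Type w} [NormedAddCommGroup E] [NormedSpace ℝ E]
    [NormedAddCommGroup H] [InnerProductSpace ℝ H] (e : ℕ → E) (he : ∀ n, 1 ≤ ‖e n‖)
    (hb : ∀ ε : ℕ → ℝ, (∀ i, |ε i| ≤ 1) → ∀ n, ‖∑ i ∈ Finset.range n, ε i • e i‖ ≤ 1) :
    ¬ LB E H := by
  rintro ⟨T, c, hc, hT⟩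
  have key : ∀ n : ℕ, ∃ ε : ℕ → ℝ, (∀ i, |ε i| ≤ 1) ∧
      n * c ^ 2 ≤ ‖T (∑ i ∈ Finset.range n, ε i • e i)‖ ^ 2 := by
    intro n
    induction n with
    | zero => exact ⟨0, by simp, by simp⟩
    | succ n ih =>
      obtain ⟨ε, hε, hn⟩ := ih
      set x := T (∑ i ∈ Finset.range n, ε i • e i) with hx
      have hy : c ≤ ‖T (e n)‖ := le_trans (by nlinarith [he n]) (hT (e n))
      have hy2 : c ^ 2 ≤ ‖T (e n)‖ ^ 2 := by nlinarith
      have hpar := parallelogram_law_with_norm ℝ x (T (e n))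
      have hupd : ∀ σ : ℝ, T (∑ i ∈ Finset.range (n + 1), (Function.update ε n σ) i • e i) =
          x + σ • T (e n) := by
        intro σ
        rw [Finset.sum_range_succ, map_add, map_smul, Function.update_self, hx]
        congr 2
        refine Finset.sum_congr rfl fun i hi => ?_
        rw [Function.update_of_ne (Finset.mem_range.1 hi).ne]
      have hb' : ∀ σ : ℝ, |σ| ≤ 1 → ∀ i, |(Function.update ε n σ) i| ≤ 1 := by
        intro σ hσ i
        by_cases h : i = n
        · subst h; simpa using hσ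
        · rw [Function.update_of_ne h]; exact hε i
      by_cases h : ‖x - T (e n)‖ ^ 2 ≤ ‖x + T (e n)‖ ^ 2
      · refine ⟨_, hb' 1 (by simp), ?_⟩
        rw [hupd, one_smul]
        push_cast
        nlinarith
      · refine ⟨_, hb' (-1) (by simp), ?_⟩
        rw [hupd, neg_one_smul, ← sub_eq_add_neg]
        push_cast
        nlinarith
  obtain ⟨n, hn⟩ := exists_nat_gt (‖T‖ ^ 2 / c ^ 2)
  obtain ⟨ε, hε, h⟩ := key n
  have h1 : ‖T (∑ i ∈ Finset.range n, ε i • e i)‖ ≤ ‖T‖ :=
    (T.le_opNorm _).trans (mul_le_of_le_one_right (norm_nonneg _) (hb ε hε n))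
  have h2 : ‖T (∑ i ∈ Finset.range n, ε i • e i)‖ ^ 2 ≤ ‖T‖ ^ 2 :=
    pow_le_pow_left₀ (norm_nonneg _) h1 2
  rw [div_lt_iff₀ (by positivity)] at hn
  linarith

theorem abs_sum_ite_le {ι : Type*} [DecidableEq ι] (q : ℕ → ι) (hq : Function.Injective q)
    (ε : ℕ → ℝ) (hε : ∀ i, |ε i| ≤ 1) (n : ℕ) (y : ι) :
    |∑ i ∈ Finset.range n, ε i * (if y = q i then 1 else 0)| ≤ 1 := by
  by_cases h : ∃ j ∈ Finset.range n, y = q j
  · obtain ⟨j, hj, rfl⟩ := h
    rw [Finset.sum_eq_single j]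
    · simpa using hε j
    · intro i _ hi
      have : q j ≠ q i := fun h => hi (hq h).symm
      simp [this]
    · intro h; exact absurd hj h
  · push Not at h
    rw [Finset.sum_eq_zero fun i hi => by simp [h i hi]]
    simp

theorem not_lb_cord {ξ : Ordinal.{u}} (hξ : ω ≤ ξ) (H : Type w) [NormedAddCommGroup H]
    [InnerProductSpace ℝ H] : ¬ LB (COrd ξ) H := by
  classical
  have hcl : ∀ n : ℕ, IsClopen ({(n : Ordinal.{u})} : Set Ordinal.{u}) := fun n =>
    ⟨isClosed_singleton, SuccOrder.isOpen_singleton_iff.2 fun h =>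
      absurd (omega0_le_of_isSuccLimit h) (not_le.2 (natCast_lt_omega0 n))⟩
  let e : ℕ → COrd ξ := fun n =>
    ⟨fun y => ({(n : Ordinal.{u})} : Set Ordinal.{u}).indicator (fun _ => (1 : ℝ)) y,
      ((hcl n).continuous_indicator continuous_const).comp continuous_subtype_val⟩
  have he : ∀ n y, e n y = if (y : Ordinal.{u}) = (n : Ordinal.{u}) then 1 else 0 := by
    intro n y
    simp [e, indicator_apply]
  refine not_lb_hilbert e (fun n => ?_) (fun ε hε n => ?_)
  · have := (e n).norm_coe_le_norm ⟨n, zero_le, ((natCast_lt_omega0 n).le.trans hξ)⟩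
    rw [he] at this
    simpa using this
  · refine (ContinuousMap.norm_le _ zero_le_one).2 fun y => ?_
    have := abs_sum_ite_le (fun n : ℕ => (n : Ordinal.{u})) Nat.cast_injective ε hε n y
    simpa [ContinuousMap.coe_sum, he] using this

theorem not_lb_c0 (H : Type w) [NormedAddCommGroup H] [InnerProductSpace ℝ H] :
    ¬ LB C₀(ℕ, ℝ) H := by
  classical
  let e : ℕ → C₀(ℕ, ℝ) := fun n =>
    { toFun := fun y => if y = n then 1 else 0
      continuous_toFun := continuous_of_discreteTopology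
      zero_at_infty' := by
        rw [Filter.cocompact_eq_cofinite, Nat.cofinite_eq_atTop]
        refine tendsto_const_nhds.congr' ?_
        filter_upwards [Filter.eventually_gt_atTop n] with y hy
        simp [hy.ne'] }
  have he : ∀ n y, e n y = if y = n then 1 else 0 := fun n y => rfl
  refine not_lb_hilbert e (fun n => ?_) (fun ε hε n => ?_)
  · have := (e n).toBCF.norm_coe_le_norm n
    rw [ZeroAtInftyContinuousMap.norm_toBCF_eq_norm] at this
    have h2 : (e n).toBCF n = 1 := by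
      show e n n = 1
      rw [he]; simp
    simpa [h2] using this
  · rw [← ZeroAtInftyContinuousMap.norm_toBCF_eq_norm]
    refine (BoundedContinuousFunction.norm_le zero_le_one).2 fun y => ?_
    have := abs_sum_ite_le (fun n : ℕ => n) (fun _ _ h => h) ε hε n y
    have h2 : ∀ m, (∑ i ∈ Finset.range m, ε i • e i) y =
        ∑ i ∈ Finset.range m, ε i * (if y = i then 1 else 0) := by
      intro m
      induction m with
      | zero => simp
      | succ m ih =>
        rw [Finset.sum_range_succ, Finset.sum_range_succ, ← ih, ← he]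
        rfl
    show ‖(∑ i ∈ Finset.range n, ε i • e i) y‖ ≤ 1
    rw [h2]
    exact this

theorem lb_hilbert_of_lt {γ : Ordinal.{u}} (hγ : γ < ω) :
    ∃ (_ : Fintype (Icc (0 : Ordinal.{u}) γ)),
      LB (COrd γ) (EuclideanSpace ℝ (Icc (0 : Ordinal.{u}) γ)) := by
  have hfin : (Icc (0 : Ordinal.{u}) γ).Finite := by
    obtain ⟨n, rfl⟩ := lt_omega0.1 hγ
    refine ((Set.finite_le_nat n).image (fun k : ℕ => (k : Ordinal.{u}))).subset ?_
    rintro x ⟨-, hx⟩
    obtain ⟨k, rfl⟩ := lt_omega0.1 (hx.trans_lt hγ)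
    exact ⟨k, by simpa using hx, rfl⟩
  haveI := hfin.fintype
  refine ⟨inferInstance, ((PiLp.continuousLinearEquiv 2 ℝ
    (fun _ : Icc (0 : Ordinal.{u}) γ => ℝ)).symm : _ →L[ℝ] _).comp
      (ContinuousLinearMap.pi fun x => ContinuousMap.evalCLM ℝ x), 1, one_pos, fun g => ?_⟩
  rw [one_mul]
  refine (ContinuousMap.norm_le _ (norm_nonneg _)).2 fun x => ?_
  exact PiLp.norm_apply_le (p := 2) (β := fun _ : Icc (0 : Ordinal.{u}) γ => ℝ)
    (WithLp.toLp 2 fun x => g x) x

theorem LB.trans {E : Type*} {F : Type*} {G : Type*} [NormedAddCommGroup E] [NormedSpace ℝ E]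
    [NormedAddCommGroup F] [NormedSpace ℝ F] [NormedAddCommGroup G] [NormedSpace ℝ G]
    (h₁ : LB E F) (h₂ : LB F G) : LB E G := by
  obtain ⟨T, c, hc, hT⟩ := h₁
  obtain ⟨S, d, hd, hS⟩ := h₂
  refine ⟨S.comp T, d * c, by positivity, fun x => ?_⟩
  have := hS (T x)
  have h2 := mul_le_mul_of_nonneg_left (hT x) hd.le
  simp only [ContinuousLinearMap.comp_apply]
  linarith [mul_assoc d c ‖x‖]

theorem omega_le_of_lb {θ γ : Ordinal.{u}} (hθ : ω ≤ θ) (h : LB (COrd θ) (COrd γ)) : ω ≤ γ := by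
  by_contra hn
  obtain ⟨_, h2⟩ := lb_hilbert_of_lt (not_le.1 hn)
  exact not_lb_cord hθ _ (h.trans h2)

end Pool.Agent.H990Z.InjT
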