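import Pool.Agent.H990Z.InjT.Diag

/-!
The counterexample.
-/

namespace Pool.Agent.H990Z.InjT

open Ordinal Set Topology
open scoped ZeroAtInfty

universe u

theorem counterexample (α : Ordinal.{u}) (hα : 0 < α) (a : ℕ → Ordinal.{u}) (hmono : Monotone a)
    (hlt : ∀ n, a n < ω ^ α) (hsup : ⨆ n, a n = ω ^ α) :
    ∃ (X : Type (u + 1)) (Y : Type) (_ : NormedAddCommGroup X) (_ : NormedSpace ℝ X)
      (_ : CompleteSpace X) (_ : NormedAddCommGroup Y) (_ : NormedSpace ℝ Y) (_ : CompleteSpace Y),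
      EmbedsCompl (COrd (ω ^ ω ^ α)) (InjTensor X Y) ∧
      ¬ Embeds (COrd (ω ^ ω ^ α)) X ∧ ¬ Embeds (COrd (ω ^ ω ^ α)) Y ∧
      ¬ (EmbedsUnif (fun n => COrd (ω ^ a n)) X ∧ Embeds C₀(ℕ, ℝ) Y) ∧
      ¬ (EmbedsUnif (fun n => COrd (ω ^ a n)) Y ∧ Embeds C₀(ℕ, ℝ) X) := by
  have h1 : (1 : Ordinal.{u}) < ω ^ α := one_lt_opow.2 ⟨one_lt_omega0, hα.ne'⟩
  have hω : ω < ω ^ ω ^ α := by
    have := (opow_lt_opow_iff_right one_lt_omega0).2 h1
    rwa [opow_one] at this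
  have hb : Monotone fun n => ω ^ a n := fun m n h => opow_le_opow_right omega0_pos (hmono h)
  have hblt : ∀ n, ω ^ a n < ω ^ ω ^ α := fun n => (opow_lt_opow_iff_right one_lt_omega0).2 (hlt n)
  have hcofa : ∀ x < ω ^ α, ∃ n, x < a n := by
    intro x hx
    rw [← hsup] at hx
    exact (lt_ciSup_iff' bddAbove_of_small).1 hx
  have hcof : ∀ y < ω ^ ω ^ α, ∃ n, y ≤ ω ^ a n := by
    intro y hy
    have hlim : Order.IsSuccLimit (ω ^ α) := isSuccLimit_opow_left isSuccLimit_omega0 hα.ne'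
    obtain ⟨c, hc, hyc⟩ := (lt_opow_of_isSuccLimit omega0_ne_zero hlim).1 hy
    obtain ⟨n, hn⟩ := hcofa c hc
    exact ⟨n, hyc.le.trans (opow_le_opow_right omega0_pos hn.le)⟩
  refine ⟨lp (fun n => COrd (ω ^ a n)) 2, lp (fun _ : ℕ => ℝ) 2, inferInstance, inferInstance,
    inferInstance, inferInstance, inferInstance, inferInstance, embedsCompl_main hb hblt hcof,
    fun h => ?_, fun h => ?_, fun h => ?_, fun h => ?_⟩
  · exact not_lb_lp (isPrincipal_add_omega0_opow _) (isPrincipal_mul_omega0_opow_opow _) hω _ hblt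
      h.lb
  · exact not_lb_cord hω.le _ h.lb
  · exact not_lb_c0 _ h.2.lb
  · obtain ⟨⟨W, T, -⟩, -⟩ := h
    obtain ⟨n, hn⟩ := hcofa 0 (zero_lt_one.trans h1)
    have h2 : ω ≤ ω ^ a n := by
      have := opow_le_opow_right omega0_pos (Order.one_le_iff_pos.2 hn)
      rwa [opow_one] at this
    exact not_lb_cord h2 _ (LB.of_equiv (W n) (T n))

end Pool.Agent.H990Z.InjT
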