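import Pool.Agent.H990Z.InjT.Defs

/-!
Operators between the spaces `C(ξ)` and the lemma of Bessaga and Pełczyński.
-/

namespace Pool.Agent.H990Z.InjT

open Ordinal Set Topology

universe u v w

/-- Bounded below operator. -/
def LB (E : Type v) (Z : Type w) [NormedAddCommGroup E] [NormedSpace ℝ E]
    [NormedAddCommGroup Z] [NormedSpace ℝ Z] : Prop :=
  ∃ T : E →L[ℝ] Z, ∃ c : ℝ, 0 < c ∧ ∀ x, c * ‖x‖ ≤ ‖T x‖

theorem LB.of_equiv {E : Type v} {Z : Type w} [NormedAddCommGroup E] [NormedSpace ℝ E]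
    [NormedAddCommGroup Z] [NormedSpace ℝ Z] (W : Submodule ℝ Z) (T : E ≃L[ℝ] W) : LB E Z := by
  refine ⟨W.subtypeL.comp (T : E →L[ℝ] W), (‖(T.symm : W →L[ℝ] E)‖ + 1)⁻¹, by positivity, ?_⟩
  intro x
  have h1 : ‖x‖ ≤ ‖(T.symm : W →L[ℝ] E)‖ * ‖T x‖ := by
    have := (T.symm : W →L[ℝ] E).le_opNorm (T x)
    simpa using this
  have h2 : ‖(W.subtypeL.comp (T : E →L[ℝ] W)) x‖ = ‖T x‖ := rfl
  rw [h2, inv_mul_le_iff₀ (by positivity)]
  nlinarith [norm_nonneg (T x)]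

theorem Embeds.lb {E : Type v} {Z : Type w} [NormedAddCommGroup E] [NormedSpace ℝ E]
    [NormedAddCommGroup Z] [NormedSpace ℝ Z] (h : Embeds E Z) : LB E Z := by
  obtain ⟨W, -, ⟨T⟩⟩ := h
  exact LB.of_equiv W T

theorem isClopen_Iic' (a : Ordinal.{u}) : IsClopen (Iic a) :=
  ⟨isClosed_Iic, by
    have : Iic a = Iio (a + 1) := by ext x; simp
    rw [this]; exact isOpen_Iio⟩

theorem isClopen_Ioi' (a : Ordinal.{u}) : IsClopen (Ioi a) := by
  rw [← compl_Iic]; exact (isClopen_Iic' a).compl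

theorem isClopen_Ioc' (a b : Ordinal.{u}) : IsClopen (Ioc a b) :=
  (isClopen_Ioi' a).inter (isClopen_Iic' b)

/-- Extension of a function on `[0, γ]` to all ordinals. -/
noncomputable def ext {γ : Ordinal.{u}} (g : COrd γ) : Ordinal.{u} → ℝ :=
  Set.IccExtend (zero_le : (0 : Ordinal.{u}) ≤ γ) g

theorem ext_cont {γ : Ordinal.{u}} (g : COrd γ) : Continuous (ext g) :=
  g.continuous.Icc_extend'

theorem ext_of_le {γ : Ordinal.{u}} (g : COrd γ) {x : Ordinal.{u}} (hx : x ≤ γ) :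
    ext g x = g ⟨x, zero_le, hx⟩ :=
  IccExtend_of_mem _ _ _

theorem ext_val {γ : Ordinal.{u}} (g : COrd γ) (x : Icc (0 : Ordinal.{u}) γ) :
    ext g x = g x :=
  IccExtend_val _ _ _

theorem abs_ext_le {γ : Ordinal.{u}} (g : COrd γ) (x : Ordinal.{u}) : |ext g x| ≤ ‖g‖ :=
  g.norm_coe_le_norm _

theorem ext_add {γ : Ordinal.{u}} (g h : COrd γ) (x : Ordinal.{u}) :
    ext (g + h) x = ext g x + ext h x := rfl

theorem ext_sub {γ : Ordinal.{u}} (g h : COrd γ) (x : Ordinal.{u}) :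
    ext (g - h) x = ext g x - ext h x := rfl

theorem ext_smul {γ : Ordinal.{u}} (c : ℝ) (g : COrd γ) (x : Ordinal.{u}) :
    ext (c • g) x = c * ext g x := rfl

theorem norm_le_of_ext {γ : Ordinal.{u}} (g : COrd γ) {c : ℝ}
    (h : ∀ x, x ≤ γ → |ext g x| ≤ c) : ‖g‖ ≤ c := by
  have hc : 0 ≤ c := (abs_nonneg _).trans (h 0 zero_le)
  refine (ContinuousMap.norm_le g hc).2 fun x => ?_
  have := h x x.2.2
  rwa [ext_val] at this

/-- Pull back along `p` and cut to the clopen set `U`. -/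
noncomputable def pc (γ ξ : Ordinal.{u}) (p : Ordinal.{u} → Ordinal.{u}) (hp : Continuous p)
    (U : Set Ordinal.{u}) (hU : IsClopen U) : COrd γ →L[ℝ] COrd ξ :=
  LinearMap.mkContinuous
    { toFun := fun g => ⟨fun y => U.indicator (fun z => ext g (p z)) y,
        (hU.continuous_indicator ((ext_cont g).comp hp)).comp continuous_subtype_val⟩
      map_add' := fun g h => by
        ext y
        by_cases hy : (y : Ordinal.{u}) ∈ U <;> simp [hy, ext_add]
      map_smul' := fun c g => by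
        ext y
        by_cases hy : (y : Ordinal.{u}) ∈ U <;> simp [hy, ext_smul] } 1
    (fun g => by
      rw [one_mul]
      refine (ContinuousMap.norm_le _ (norm_nonneg _)).2 fun y => ?_
      by_cases hy : (y : Ordinal.{u}) ∈ U
      · simpa [hy] using abs_ext_le g _
      · simp [hy])

theorem ext_pc {γ ξ : Ordinal.{u}} {p : Ordinal.{u} → Ordinal.{u}} {hp : Continuous p}
    {U : Set Ordinal.{u}} {hU : IsClopen U} (g : COrd γ) {y : Ordinal.{u}} (hy : y ≤ ξ) :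
    ext (pc γ ξ p hp U hU g) y = U.indicator (fun z => ext g (p z)) y := by
  rw [ext_of_le _ hy]; rfl

theorem norm_pc_le {γ ξ : Ordinal.{u}} {p : Ordinal.{u} → Ordinal.{u}} {hp : Continuous p}
    {U : Set Ordinal.{u}} {hU : IsClopen U} (g : COrd γ) : ‖pc γ ξ p hp U hU g‖ ≤ ‖g‖ := by
  refine norm_le_of_ext _ fun y hy => ?_
  rw [ext_pc g hy]
  by_cases h : y ∈ U
  · simpa [h] using abs_ext_le g _
  · simp [h]

/-- Lower adjoint of a strictly monotone map. -/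
theorem exists_adj (φ : Ordinal.{u} → Ordinal.{u}) (hφ : StrictMono φ) :
    ∃ p : Ordinal.{u} → Ordinal.{u}, Continuous p ∧ ∀ y x, p y ≤ x ↔ y ≤ φ x := by
  have key : ∀ y x, sInf {x | y ≤ φ x} ≤ x ↔ y ≤ φ x := by
    intro y x
    have hne : ({x | y ≤ φ x} : Set Ordinal.{u}).Nonempty := ⟨y, hφ.le_apply⟩
    constructor
    · intro h
      exact (csInf_mem hne).trans (hφ.monotone h)
    · intro h
      exact csInf_le' h
  refine ⟨fun y => sInf {x | y ≤ φ x}, ?_, key⟩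
  refine OrderTopology.continuous_iff.2 fun a => ⟨?_, ?_⟩
  · have : (fun y => sInf {x | y ≤ φ x}) ⁻¹' Ioi a = Ioi (φ a) := by
      ext y
      simp only [mem_preimage, mem_Ioi]
      rw [← not_le, key, not_le]
    rw [this]; exact isOpen_Ioi
  · have : (fun y => sInf {x | y ≤ φ x}) ⁻¹' Iio a = ⋃ b ∈ Iio a, Iic (φ b) := by
      ext y
      simp only [mem_preimage, mem_Iio, mem_iUnion, mem_Iic, exists_prop]
      constructor
      · intro h
        exact ⟨_, h, (key y _).1 le_rfl⟩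
      · rintro ⟨b, hb, h⟩
        exact ((key y b).2 h).trans_lt hb
    rw [this]
    exact isOpen_biUnion fun b _ => (isClopen_Iic' _).isOpen

theorem join {Z : Type v} [NormedAddCommGroup Z] [NormedSpace ℝ Z] {γ₁ γ₂ : Ordinal.{u}}
    (S₁ : Z →L[ℝ] COrd γ₁) (S₂ : Z →L[ℝ] COrd γ₂) :
    ∃ S : Z →L[ℝ] COrd (γ₁ + 1 + γ₂), ∀ z, ‖S₁ z‖ ≤ ‖S z‖ ∧ ‖S₂ z‖ ≤ ‖S z‖ ∧
      ‖S z‖ ≤ max ‖S₁ z‖ ‖S₂ z‖ := by
  have hφ : StrictMono fun x : Ordinal.{u} => γ₁ + 1 + x := fun a b h => by simpa using h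
  obtain ⟨p, hp, hadj⟩ := exists_adj _ hφ
  refine ⟨(pc γ₁ _ id continuous_id _ (isClopen_Iic' γ₁)).comp S₁ +
    (pc γ₂ _ p hp _ (isClopen_Ioi' γ₁)).comp S₂, fun z => ⟨?_, ?_, ?_⟩⟩
  · refine norm_le_of_ext _ fun x hx => ?_
    have hx' : x ≤ γ₁ + 1 + γ₂ := hx.trans (le_self_add.trans le_self_add)
    refine le_trans (le_of_eq ?_) (abs_ext_le _ x)
    simp only [add_apply, ContinuousLinearMap.comp_apply, ext_add]
    rw [ext_pc _ hx', ext_pc _ hx']
    simp [hx]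
  · refine norm_le_of_ext _ fun x hx => ?_
    have hx' : γ₁ + 1 + x ≤ γ₁ + 1 + γ₂ := hφ.monotone hx
    have hlt : γ₁ < γ₁ + 1 + x := (lt_add_one γ₁).trans_le le_self_add
    have hpx : p (γ₁ + 1 + x) = x := by
      refine le_antisymm ((hadj _ _).2 le_rfl) ?_
      have := (hadj (γ₁ + 1 + x) _).1 le_rfl
      exact hφ.le_iff_le.1 this
    refine le_trans (le_of_eq ?_) (abs_ext_le _ (γ₁ + 1 + x))
    simp only [add_apply, ContinuousLinearMap.comp_apply, ext_add]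
    rw [ext_pc _ hx', ext_pc _ hx']
    simp [hlt, hpx, not_le.2 hlt]
  · refine norm_le_of_ext _ fun x hx => ?_
    simp only [add_apply, ContinuousLinearMap.comp_apply, ext_add]
    rw [ext_pc _ hx, ext_pc _ hx]
    by_cases h : x ≤ γ₁
    · simpa [h] using Or.inl (abs_ext_le (S₁ z) x)
    · simpa [h, not_le.1 h] using Or.inr (abs_ext_le (S₂ z) (p x))

theorem exists_isolated {θ : Ordinal.{u}} (g : COrd θ) {c : ℝ} (hc : 0 ≤ c) (h : c < ‖g‖) :
    ∃ x ≤ θ, c < |ext g x| ∧ (x = 0 ∨ ∃ η, x = η + 1) := by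
  obtain ⟨x, hx, hcx⟩ : ∃ x ≤ θ, c < |ext g x| := by
    by_contra hn
    push Not at hn
    exact absurd (norm_le_of_ext g hn) (not_le.2 h)
  rcases zero_or_succ_or_isSuccLimit x with h0 | ⟨η, hη⟩ | hl
  · exact ⟨x, hx, hcx, Or.inl h0⟩
  · exact ⟨x, hx, hcx, Or.inr ⟨η, by simpa using hη.symm⟩⟩
  · have ho : IsOpen {z | c < |ext g z|} := isOpen_lt continuous_const (ext_cont g).abs
    obtain ⟨a, ha, hsub⟩ := SuccOrder.isOpen_iff.1 ho x hcx hl
    have h1 : a + 1 < x := by simpa using hl.succ_lt ha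
    exact ⟨a + 1, h1.le.trans hx, hsub ⟨lt_add_one a, h1⟩, Or.inr ⟨a, rfl⟩⟩

theorem block (θ lam β s : Ordinal.{u}) (hs : 0 < s) (h : β + s * (1 + θ) ≤ lam) :
    ∃ A : COrd θ →L[ℝ] COrd lam, (∀ g, ‖A g‖ ≤ ‖g‖) ∧
      (∀ g y, y ≤ lam → ¬ (β < y ∧ y ≤ β + s * (1 + θ)) → ext (A g) y = 0) ∧
      (∀ g (c : ℝ), 0 ≤ c → c < ‖g‖ → ∃ β', β ≤ β' ∧ β' + s ≤ β + s * (1 + θ) ∧
        ∃ r : ℝ, c < |r| ∧ ∀ y, β' < y → y ≤ β' + s → ext (A g) y = r) := by
  have hφ : StrictMono fun x : Ordinal.{u} => β + s * (1 + x) := fun a b hab => by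
    have h1 : 1 + a < 1 + b := by simpa using hab
    have h2 : s * (1 + a) < s * (1 + b) := mul_lt_mul_of_pos_left h1 hs
    simpa using h2
  obtain ⟨p, hp, hadj⟩ := exists_adj _ hφ
  refine ⟨pc θ lam p hp _ (isClopen_Ioc' β (β + s * (1 + θ))), fun g => norm_pc_le g, ?_, ?_⟩
  · intro g y hy hn
    rw [ext_pc _ hy]
    exact indicator_of_notMem (show y ∉ Ioc _ _ from hn) _
  · intro g c hc hg
    obtain ⟨x, hx, hcx, h0 | ⟨η, hη⟩⟩ := exists_isolated g hc hg
    · subst h0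
      have hle : β + s ≤ β + s * (1 + θ) := by
        simpa using hφ.monotone (zero_le : (0 : Ordinal.{u}) ≤ θ)
      refine ⟨β, le_rfl, hle, ext g 0, hcx, fun y h1 h2 => ?_⟩
      rw [ext_pc _ (h2.trans (hle.trans h)), indicator_of_mem (show y ∈ Ioc _ _ from
        ⟨h1, h2.trans hle⟩)]
      have : p y = 0 := le_antisymm ((hadj _ _).2 (by simpa using h2)) zero_le
      rw [this]
    · subst hη
      have e : β + s * (1 + η) + s = β + s * (1 + (η + 1)) := by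
        rw [← add_assoc 1 η 1, mul_add s (1 + η) 1, mul_one, add_assoc]
      have hle : β + s * (1 + η) + s ≤ β + s * (1 + θ) := by
        rw [e]; exact hφ.monotone hx
      refine ⟨β + s * (1 + η), le_self_add, hle, ext g (η + 1), hcx, fun y h1 h2 => ?_⟩
      rw [ext_pc _ (h2.trans (hle.trans h)), indicator_of_mem (show y ∈ Ioc _ _ from
        ⟨le_self_add.trans_lt h1, h2.trans hle⟩)]
      have : p y = η + 1 := by
        refine le_antisymm ((hadj _ _).2 (by rw [← e]; exact h2)) ?_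
        have : ¬ p y ≤ η := by rw [hadj]; exact not_le.2 h1
        simpa using not_le.1 this
      rw [this]

end Pool.Agent.H990Z.InjT
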